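import Pool.Agent.H55.BQ.Targets

/-!
RGA: close points with `k, l ≤ 3 N`.
-/

set_option autoImplicit false

open Finset Pool.Agent.H55.BP Pool.Agent.H55.BQ

namespace Pool.Agent.H49.BPQ

variable {n : ℕ} {ι : Type}

/-- the legs stay away from the white vertices for `t ≤ 4` -/
theorem far4 (Y : Sys n ι) (e : ι) (t : ℝ) (h0 : 0 ≤ t) (h4 : t ≤ 4) (i : Fin n) :
    Y.rad / 8 ≤ ‖Y.γ e t - (i.val : ℂ)‖ := by
  have hr := Y.rad_pos
  have hr4 := Y.rad_lt
  rcases le_total t 1 with h1 | h1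
  · have := Y.far e t i h0 h1
    linarith
  · have hn : ‖Y.γ e t - ((Y.wt e).val : ℂ)‖ = Y.rad * Real.exp (-((t - 1) * Real.log 2)) := by
      rw [Y.spi e t h1, add_sub_cancel_left, norm_mul, Y.hit, Complex.norm_exp]
      congr 2
      have hlog : (Complex.log 2).re = Real.log 2 := by
        rw [show (2 : ℂ) = ((2 : ℝ) : ℂ) by norm_num, Complex.log_ofReal_re]
      simp [hlog]
    have hl2 : 0 < Real.log 2 := Real.log_pos (by norm_num)
    have hlo : 1 / 8 ≤ Real.exp (-((t - 1) * Real.log 2)) := by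
      have h8 : Real.exp (-(3 * Real.log 2)) = 1 / 8 := by
        rw [Real.exp_neg, mul_comm, ← Real.rpow_def_of_pos (by norm_num)]
        norm_num
      rw [← h8]
      refine Real.exp_le_exp.2 (neg_le_neg (mul_le_mul_of_nonneg_right (by linarith) hl2.le))
    have hhi : Real.exp (-((t - 1) * Real.log 2)) ≤ 1 := by
      rw [Real.exp_le_one_iff]
      have : 0 ≤ (t - 1) * Real.log 2 := mul_nonneg (by linarith) hl2.le
      linarith
    by_cases hi : i = Y.wt e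
    · rw [hi, hn]
      nlinarith
    · have hdist : 1 ≤ ‖(i.val : ℂ) - ((Y.wt e).val : ℂ)‖ := by
        have e1 : (i.val : ℂ) - ((Y.wt e).val : ℂ) = (((i.val : ℤ) - (Y.wt e).val : ℤ) : ℂ) := by
          push_cast
          rfl
        rw [e1, Complex.norm_intCast]
        have hne : (i.val : ℤ) - (Y.wt e).val ≠ 0 := by
          intro h
          apply hi
          apply Fin.ext
          omega
        exact_mod_cast Int.one_le_abs hne
      have htri : ‖(i.val : ℂ) - ((Y.wt e).val : ℂ)‖ ≤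
          ‖Y.γ e t - (i.val : ℂ)‖ + ‖Y.γ e t - ((Y.wt e).val : ℂ)‖ := by
        have e2 : (i.val : ℂ) - ((Y.wt e).val : ℂ) =
            (Y.γ e t - ((Y.wt e).val : ℂ)) - (Y.γ e t - (i.val : ℂ)) := by ring
        rw [e2]
        refine (norm_sub_le _ _).trans ?_
        rw [add_comm]
      have hup : ‖Y.γ e t - ((Y.wt e).val : ℂ)‖ ≤ Y.rad := by
        rw [hn]
        nlinarith
      linarith

/-- uniform continuity of a leg on `[0, 4]` -/
theorem unif (Y : Sys n ι) (e : ι) (ε : ℝ) (hε : 0 < ε) : ∃ δ > 0, ∀ s t : ℝ, 0 ≤ s → s ≤ 4 →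
    0 ≤ t → t ≤ 4 → |s - t| < δ → ‖Y.γ e s - Y.γ e t‖ < ε := by
  have hc : ContinuousOn (Y.γ e) (Set.Icc 0 4) :=
    (Y.cont e).mono fun x hx => hx.1
  have hu := isCompact_Icc.uniformContinuousOn_of_continuous hc
  rw [Metric.uniformContinuousOn_iff] at hu
  obtain ⟨δ, hδ, h⟩ := hu ε hε
  refine ⟨δ, hδ, fun s t hs0 hs4 ht0 ht4 hst => ?_⟩
  have := h s ⟨hs0, hs4⟩ t ⟨ht0, ht4⟩ (by rwa [Real.dist_eq])
  rwa [dist_eq_norm] at this

/-- the cells of a leg near a point -/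
theorem nearLeg [NeZero n] (hLC : T_LC) (T : LT n) (Y : Sys n ι) (N : ℕ) (hN : 0 < N) (e : ι)
    (q : ℂ) (ρ : ℝ) (hq : ∀ i : Fin n, 2 * ρ ≤ ‖q - (i.val : ℂ)‖) (s' δ : ℝ)
    (hδ : ∀ x : ℝ, 0 ≤ x → x ≤ 4 → |x - s'| ≤ δ → ‖Y.γ e x - q‖ < ρ) (k k' : ℕ)
    (hk : |(k : ℝ) / N - s'| ≤ δ) (hk' : |(k' : ℝ) / N - s'| ≤ δ) (hk4 : k ≤ 4 * N)
    (hk4' : k' ≤ 4 * N) :
    Y.c T N e k' = if sg (Y.z N e k) = sg (Y.z N e k') then Y.c T N e k
      else T.r (side n q.re) (Y.c T N e k) := by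
  have hNr : (0 : ℝ) < N := by exact_mod_cast hN
  have key : ∀ a b : ℕ, a ≤ b → |(a : ℝ) / N - s'| ≤ δ → |(b : ℝ) / N - s'| ≤ δ → b ≤ 4 * N →
      Y.c T N e b = if sg (Y.z N e a) = sg (Y.z N e b) then Y.c T N e a
        else T.r (side n q.re) (Y.c T N e a) := by
    intro a b hab ha hb hb4
    refine hLC T (cell0 T (Y.γ e 0)) (Y.z N e) q ρ hq a b hab fun j h1 h2 => ?_
    have h1r : (a : ℝ) / N ≤ (j : ℝ) / N := div_le_div_of_nonneg_right (by exact_mod_cast h1) hNr.le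
    have h2r : (j : ℝ) / N ≤ (b : ℝ) / N := div_le_div_of_nonneg_right (by exact_mod_cast h2) hNr.le
    refine hδ ((j : ℝ) / N) (by positivity) ?_ ?_
    · rw [div_le_iff₀ hNr]
      have : j ≤ 4 * N := h2.trans hb4
      exact_mod_cast this
    · rw [abs_le] at ha hb ⊢
      exact ⟨by linarith [ha.1], by linarith [hb.2]⟩
  rcases le_total k k' with h | h
  · exact key k k' h hk hk' hk4'
  · have h1 := key k' k h hk' hk hk4
    by_cases hs : sg (Y.z N e k) = sg (Y.z N e k')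
    · rw [if_pos hs.symm] at h1
      rw [if_pos hs, h1]
    · rw [if_neg (Ne.symm hs)] at h1
      rw [if_neg hs, h1, T.rr]

theorem par_cell0 [NeZero n] (T : LT n) (z : ℂ) : T.par (cell0 T z) = sg z := by
  unfold cell0
  split_ifs with h
  · rw [T.par_o, h]
  · rw [T.par_r, T.par_o]
    simp only [Bool.not_true]
    cases hz : sg z
    · rfl
    · exact absurd hz h

/-- the result for one pair of legs -/
theorem pairRGA [NeZero n] (hCPT : T_CPT) (hLC : T_LC) (hPRC : T_PRC) (hDKU : T_DKU) (T : LT n)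
    (Y : Sys n ι) (e f : ι) : ∃ N₀ : ℕ, ∀ N, N₀ ≤ N → ∀ (h : Dk T) (k l : ℕ), k ≤ 3 * N →
      l ≤ 3 * N → Y.CloseAt T N e f h k l := by
  have hr := Y.rad_pos
  set ρ : ℝ := Y.rad / 16 with hρ
  have hρ0 : 0 < ρ := by positivity
  obtain ⟨d1, hd1, u1⟩ := unif Y e ρ hρ0
  obtain ⟨d2, hd2, u2⟩ := unif Y f ρ hρ0
  obtain ⟨ω, hω, hω1, hω2⟩ : ∃ ω : ℝ, 0 < ω ∧ ω < d1 ∧ ω < d2 :=
    ⟨min d1 d2 / 2, by positivity, by
      have := min_le_left d1 d2
      have := lt_min hd1 hd2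
      linarith, by
      have := min_le_right d1 d2
      have := lt_min hd1 hd2
      linarith⟩
  obtain ⟨κ, hκ, hcpt⟩ := hCPT (Y.γ e) (Y.γ f) 4 (by norm_num)
    ((Y.cont e).mono fun x hx => hx.1) ((Y.cont f).mono fun x hx => hx.1) ω hω
  obtain ⟨d3, hd3, u3⟩ := unif Y e (κ / 32) (by positivity)
  obtain ⟨d4, hd4, u4⟩ := unif Y f (κ / 32) (by positivity)
  obtain ⟨N₀, hN₀⟩ := exists_nat_gt (1 / min (min d3 d4) ω)
  refine ⟨N₀ + 1, fun N hN h k l hk hl => ?_⟩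
  have hN1 : 1 ≤ N := by omega
  have hNr : (0 : ℝ) < N := by exact_mod_cast hN1
  have hmin : 0 < min (min d3 d4) ω := lt_min (lt_min hd3 hd4) hω
  have hNinv : 1 / (N : ℝ) < min (min d3 d4) ω := by
    have h1 : (N₀ : ℝ) < N := by exact_mod_cast (by omega : N₀ < N)
    have h2 : 1 / min (min d3 d4) ω < N := hN₀.trans h1
    rw [div_lt_iff₀ hmin] at h2
    rw [div_lt_iff₀ hNr]
    linarith
  have hN3 : 1 / (N : ℝ) < d3 := hNinv.trans_le ((min_le_left _ _).trans (min_le_left _ _))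
  have hN4 : 1 / (N : ℝ) < d4 := hNinv.trans_le ((min_le_left _ _).trans (min_le_right _ _))
  have hNω : 1 / (N : ℝ) < ω := hNinv.trans_le (min_le_right _ _)
  -- the steps are small
  have hstep : ∀ (g : ι) (d : ℝ), 1 / (N : ℝ) < d → (∀ s t : ℝ, 0 ≤ s → s ≤ 4 → 0 ≤ t → t ≤ 4 →
      |s - t| < d → ‖Y.γ g s - Y.γ g t‖ < κ / 32) → ∀ k : ℕ, k ≤ 3 * N →
      Y.st N g k ≤ κ / 16 := by
    intro g d hd u k hk
    have hkr : (k : ℝ) ≤ 3 * N := by exact_mod_cast hk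
    have hNr1 : (1 : ℝ) ≤ N := by exact_mod_cast hN1
    have b1 : ((k + 1 : ℕ) : ℝ) / N ≤ 4 := by
      rw [div_le_iff₀ hNr]
      push_cast
      linarith
    have b2 : (k : ℝ) / N ≤ 4 := by
      rw [div_le_iff₀ hNr]
      linarith
    have b3 : ((k - 1 : ℕ) : ℝ) / N ≤ 4 := by
      rw [div_le_iff₀ hNr]
      have : ((k - 1 : ℕ) : ℝ) ≤ k := by exact_mod_cast Nat.sub_le k 1
      linarith
    have s1 : |((k + 1 : ℕ) : ℝ) / N - (k : ℝ) / N| < d := by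
      have : ((k + 1 : ℕ) : ℝ) / N - (k : ℝ) / N = 1 / N := by
        push_cast
        field_simp
        ring
      rw [this, abs_of_pos (by positivity)]
      exact hd
    have s2 : |(k : ℝ) / N - ((k - 1 : ℕ) : ℝ) / N| < d := by
      rcases Nat.eq_zero_or_pos k with h0 | h0
      · rw [h0]
        simp only [Nat.cast_zero, zero_div, Nat.zero_sub, sub_self, abs_zero]
        exact (by positivity : (0 : ℝ) < 1 / N).trans hd
      · have : (k : ℝ) / N - ((k - 1 : ℕ) : ℝ) / N = 1 / N := by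
          rw [Nat.cast_sub h0]
          push_cast
          field_simp
          ring
        rw [this, abs_of_pos (by positivity)]
        exact hd
    have t1 := u _ _ (by positivity) b1 (by positivity) b2 s1
    have t2 := u _ _ (by positivity) b2 (by positivity) b3 s2
    unfold Sys.st Sys.z
    linarith
  have hste := hstep e d3 hN3 u3 k hk
  have hstf := hstep f d4 hN4 u4 l hl
  intro hcell hclose
  have hkN : (k : ℝ) / N ∈ Set.Icc (0 : ℝ) 4 := by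
    refine ⟨by positivity, ?_⟩
    rw [div_le_iff₀ hNr]
    have : (k : ℝ) ≤ 3 * N := by exact_mod_cast hk
    linarith
  have hlN : (l : ℝ) / N ∈ Set.Icc (0 : ℝ) 4 := by
    refine ⟨by positivity, ?_⟩
    rw [div_le_iff₀ hNr]
    have : (l : ℝ) ≤ 3 * N := by exact_mod_cast hl
    linarith
  have hκ' : ‖Y.γ e ((k : ℝ) / N) - Y.γ f ((l : ℝ) / N)‖ ≤ κ := by
    have h1 : ‖Y.γ e ((k : ℝ) / N) - Y.γ f ((l : ℝ) / N)‖ ≤ 8 * (Y.st N e k + Y.st N f l) := hclose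
    linarith
  obtain ⟨s', hs', t', ht', hq, hks, hlt⟩ := hcpt _ hkN _ hlN hκ'
  -- the point `q`
  set q : ℂ := Y.γ e s' with hqdef
  have hqi : ∀ i : Fin n, 2 * ρ ≤ ‖q - (i.val : ℂ)‖ := by
    intro i
    have := far4 Y e s' hs'.1 hs'.2 i
    rw [hρ]
    linarith
  have hδe : ∀ x : ℝ, 0 ≤ x → x ≤ 4 → |x - s'| ≤ ω → ‖Y.γ e x - q‖ < ρ := fun x h0 h4 hx =>
    u1 x s' h0 h4 hs'.1 hs'.2 (hx.trans_lt hω1)
  have hδf : ∀ x : ℝ, 0 ≤ x → x ≤ 4 → |x - t'| ≤ ω → ‖Y.γ f x - q‖ < ρ := fun x h0 h4 hx => by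
    rw [hq]
    exact u2 x t' h0 h4 ht'.1 ht'.2 (hx.trans_lt hω2)
  -- parity
  have hz0 : ∀ g : ι, Y.z N g 0 = Y.γ g 0 := by
    intro g
    unfold Sys.z
    simp
  have hpar : ∀ (g : ι) (j : ℕ), T.par (Y.c T N g j) = sg (Y.z N g j) := by
    intro g j
    refine hPRC T (cell0 T (Y.γ g 0)) (Y.z N g) ?_ j
    rw [hz0, par_cell0]
  have hsgn : sg (Y.z N e k) = sg (Y.z N f l) := by
    rw [← hpar, ← hpar, hcell, h.hp]
  have hid : ∀ c : T.V, h.h c = c → h.h = id := fun c hc =>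
    hDKU T h.h id h.hr (fun _ _ => rfl) c hc
  have hk4 : k ≤ 4 * N := by omega
  have hl4 : l ≤ 4 * N := by omega
  by_cases hef : e = f
  · subst hef
    have hst : s' = t' := Y.inj e s' t' hs'.1 ht'.1 hq
    rw [← hst] at hlt
    have h1 := nearLeg hLC T Y N hN1 e q ρ hqi s' ω hδe l k hlt hks hl4 hk4
    rw [if_pos hsgn.symm] at h1
    exact Or.inl ⟨rfl, hid _ (hcell.symm.trans h1)⟩
  · rcases Y.crs e f s' t' hef hs'.1 ht'.1 hq with hc | hc
    · -- a crossing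
      right
      refine ⟨s', t', ⟨hef, hc.1, hc.2.1, hc.2.2.1, hc.2.2.2, hq⟩, ?_⟩
      have hi : ∀ x : ℝ, 0 < x → x < 1 → |((⌊(N : ℝ) * x⌋₊ : ℕ) : ℝ) / N - x| ≤ ω ∧
          ⌊(N : ℝ) * x⌋₊ ≤ 4 * N := by
        intro x hx0 hx1
        have hNx : 0 ≤ (N : ℝ) * x := by positivity
        have f1 := Nat.floor_le hNx
        have f2 := Nat.lt_floor_add_one ((N : ℝ) * x)
        constructor
        · have e1 : ((⌊(N : ℝ) * x⌋₊ : ℕ) : ℝ) / N - x =
              (((⌊(N : ℝ) * x⌋₊ : ℕ) : ℝ) - N * x) / N := by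
            field_simp
          rw [e1, abs_div, abs_of_pos hNr, div_le_iff₀ hNr]
          have h2 : 1 ≤ ω * N := by
            rw [div_lt_iff₀ hNr] at hNω
            exact hNω.le
          rw [abs_le]
          constructor <;> linarith
        · have h3 : ((⌊(N : ℝ) * x⌋₊ : ℕ) : ℝ) ≤ N := by nlinarith
          have h4 : ⌊(N : ℝ) * x⌋₊ ≤ N := by exact_mod_cast h3
          omega
      obtain ⟨hi1, hi2⟩ := hi s' hc.1 hc.2.1
      obtain ⟨hj1, hj2⟩ := hi t' hc.2.2.1 hc.2.2.2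
      have ce := nearLeg hLC T Y N hN1 e q ρ hqi s' ω hδe k ⌊(N : ℝ) * s'⌋₊ hks hi1 hk4 hi2
      have cf := nearLeg hLC T Y N hN1 f q ρ hqi t' ω hδf l ⌊(N : ℝ) * t'⌋₊ hlt hj1 hl4 hj2
      unfold Sys.lift
      simp only
      rw [ce, cf, hcell, hsgn, ← hqdef]
      cases sg (Y.z N f l) <;> cases sg (Y.z N e ⌊(N : ℝ) * s'⌋₊) <;>
        cases sg (Y.z N f ⌊(N : ℝ) * t'⌋₊) <;> simp [h.hr, T.rr]
    · -- the same star
      left
      obtain ⟨hb, hs0, ht0⟩ := hc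
      refine ⟨hb, hid (Y.c T N f l) ?_⟩
      rw [← hcell]
      rw [hs0] at hks
      rw [ht0] at hlt
      have h0e : |((0 : ℕ) : ℝ) / N - 0| ≤ ω := by
        simp only [Nat.cast_zero, zero_div, sub_zero, abs_zero]
        exact hω.le
      have hδe' : ∀ x : ℝ, 0 ≤ x → x ≤ 4 → |x - 0| ≤ ω → ‖Y.γ e x - q‖ < ρ :=
        fun x a1 a2 a3 => hδe x a1 a2 (by rwa [hs0])
      have hδf' : ∀ x : ℝ, 0 ≤ x → x ≤ 4 → |x - 0| ≤ ω → ‖Y.γ f x - q‖ < ρ :=
        fun x a1 a2 a3 => hδf x a1 a2 (by rwa [ht0])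
      have ce := nearLeg hLC T Y N hN1 e q ρ hqi 0 ω hδe' 0 k h0e hks (by omega) hk4
      have cf := nearLeg hLC T Y N hN1 f q ρ hqi 0 ω hδf' 0 l h0e hlt (by omega) hl4
      have hc0 : Y.c T N e 0 = Y.c T N f 0 := by
        change cell0 T (Y.γ e 0) = cell0 T (Y.γ f 0)
        rw [Y.star e f hb]
      have hz : Y.z N e 0 = Y.z N f 0 := by
        rw [hz0, hz0, Y.star e f hb]
      rw [ce, cf, hc0, hz, hsgn]

theorem pf_RGA (hCPT : T_CPT) (hLC : T_LC) (hPRC : T_PRC) (hDKU : T_DKU) : T_RGA := by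
  intro n _ T ι _ Y
  choose N₀ hN₀ using pairRGA (n := n) hCPT hLC hPRC hDKU T Y
  obtain ⟨M, hM⟩ := Finite.exists_le (fun p : ι × ι => N₀ p.1 p.2)
  exact ⟨M, fun N hN e f => hN₀ e f N ((hM (e, f)).trans hN)⟩

end Pool.Agent.H49.BPQ
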